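import Mathlib

/-!
# MP_da4765: the distinguishing index of the Mycielskian

For every connected finite simple graph `G` with at least three vertices,
`D'(μ(G)) ≤ D'(G)`; there is no exception at all.
-/

namespace Pool.Agent.Results.MP_da4765_co.Mycielskian

universe u

/-- The vertices of the Mycielskian: a copy `v x` and a copy `u x` of every vertex `x`,
and one more vertex `w`. -/
inductive MV (V : Type u) : Type u
  | v (x : V) : MV V
  | u (x : V) : MV V
  | w : MV V

variable {V : Type u}

/-- Adjacency in the Mycielskian. -/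
def mAdj (G : SimpleGraph V) : MV V → MV V → Prop
  | .v x, .v y => G.Adj x y
  | .v x, .u y => G.Adj x y
  | .u x, .v y => G.Adj x y
  | .u _, .w => True
  | .w, .u _ => True
  | _, _ => False

/-- The Mycielskian of `G`. -/
def mycielskian (G : SimpleGraph V) : SimpleGraph (MV V) where
  Adj := mAdj G
  symm := ⟨by
    intro a b h
    cases a <;> cases b <;> simp_all [mAdj, G.adj_comm]⟩
  loopless := ⟨by
    intro a h
    cases a <;> simp_all [mAdj]⟩

/-- `c` is a distinguishing edge colouring of `G`: the only automorphism of `G` that preserves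
the colour of every edge is the identity. -/
def Distinguishing {W : Type u} (G : SimpleGraph W) {d : ℕ} (c : Sym2 W → Fin d) : Prop :=
  ∀ φ : G ≃g G, (∀ x y, G.Adj x y → c s(φ x, φ y) = c s(x, y)) → ∀ x, φ x = x

/-- `a` is the distinguishing index of `G`: the least positive `d` for which `G` has a
distinguishing edge colouring with `d` colours. -/
def IsDistIndex {W : Type u} (G : SimpleGraph W) (a : ℕ) : Prop :=
  IsLeast {d : ℕ | 0 < d ∧ ∃ c : Sym2 W → Fin d, Distinguishing G c} a

section lemmas

variable (G : SimpleGraph V)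

@[simp] lemma adj_vv (x y : V) : (mycielskian G).Adj (.v x) (.v y) ↔ G.Adj x y := Iff.rfl
@[simp] lemma adj_vu (x y : V) : (mycielskian G).Adj (.v x) (.u y) ↔ G.Adj x y := Iff.rfl
@[simp] lemma adj_uv (x y : V) : (mycielskian G).Adj (.u x) (.v y) ↔ G.Adj x y := Iff.rfl
@[simp] lemma adj_uu (x y : V) : ¬ (mycielskian G).Adj (.u x) (.u y) := id
@[simp] lemma adj_uw (x : V) : (mycielskian G).Adj (.u x) .w := trivial
@[simp] lemma adj_wu (x : V) : (mycielskian G).Adj .w (.u x) := trivial
@[simp] lemma adj_vw (x : V) : ¬ (mycielskian G).Adj (.v x) .w := id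
@[simp] lemma adj_wv (x : V) : ¬ (mycielskian G).Adj .w (.v x) := id

/-- `w` is not mapped to a `v`-vertex. -/
lemma not_v [Fintype V] (h3 : 3 ≤ Fintype.card V) (φ : mycielskian G ≃g mycielskian G) (i : V) :
    φ .w ≠ .v i := by
  intro hi
  classical
  have hadj : ∀ a b, (mycielskian G).Adj (φ a) (φ b) ↔ (mycielskian G).Adj a b :=
    fun a b => φ.map_adj_iff
  -- the vertex mapped to `u i`
  obtain ⟨y, hy⟩ : ∃ y, φ y = .u i := φ.surjective _
  have hyw : y ≠ .w := by rintro rfl; rw [hi] at hy; cases hy
  have hyadj : ¬ (mycielskian G).Adj .w y := by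
    rw [← hadj, hi, hy]; simp
  obtain ⟨j, rfl⟩ : ∃ j, y = .v j := by
    cases y with
    | v j => exact ⟨j, rfl⟩
    | u j => exact absurd (adj_wu G j) hyadj
    | w => exact absurd rfl hyw
  have e1 : φ '' {z | (mycielskian G).Adj (.v j) z ∧ (mycielskian G).Adj .w z} =
      {z | (mycielskian G).Adj (.u i) z ∧ (mycielskian G).Adj (.v i) z} := by
    ext z
    constructor
    · rintro ⟨t, ⟨h1, h2⟩, rfl⟩
      exact ⟨by rw [← hy, hadj]; exact h1, by rw [← hi, hadj]; exact h2⟩
    · rintro ⟨h1, h2⟩
      obtain ⟨t, rfl⟩ := φ.surjective z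
      rw [← hy, hadj] at h1
      rw [← hi, hadj] at h2
      exact ⟨t, ⟨h1, h2⟩, rfl⟩
  have e2 : φ '' {z | (mycielskian G).Adj (.v j) z ∧ ¬ (mycielskian G).Adj .w z} =
      {z | (mycielskian G).Adj (.u i) z ∧ ¬ (mycielskian G).Adj (.v i) z} := by
    ext z
    constructor
    · rintro ⟨t, ⟨h1, h2⟩, rfl⟩
      exact ⟨by rw [← hy, hadj]; exact h1, by rw [← hi, hadj]; exact h2⟩
    · rintro ⟨h1, h2⟩
      obtain ⟨t, rfl⟩ := φ.surjective z
      rw [← hy, hadj] at h1
      rw [← hi, hadj] at h2
      exact ⟨t, ⟨h1, h2⟩, rfl⟩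
  have f1 : {z | (mycielskian G).Adj (.v j) z ∧ (mycielskian G).Adj .w z} =
      MV.u '' {k | G.Adj j k} := by
    ext z; cases z <;> simp
  have f2 : {z | (mycielskian G).Adj (.v j) z ∧ ¬ (mycielskian G).Adj .w z} =
      MV.v '' {k | G.Adj j k} := by
    ext z; cases z <;> simp
  have f3 : {z | (mycielskian G).Adj (.u i) z ∧ (mycielskian G).Adj (.v i) z} =
      MV.v '' {k | G.Adj i k} := by
    ext z; cases z <;> simp
  have f4 : {z | (mycielskian G).Adj (.u i) z ∧ ¬ (mycielskian G).Adj (.v i) z} =
      {MV.w} := by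
    ext z; cases z <;> simp
  have hvinj : Function.Injective (MV.v : V → MV V) := fun a b h => by cases h; rfl
  have huinj : Function.Injective (MV.u : V → MV V) := fun a b h => by cases h; rfl
  have g1 := Set.ncard_image_of_injective {k | G.Adj j k} huinj
  have g2 := Set.ncard_image_of_injective {k | G.Adj j k} hvinj
  have g3 := Set.ncard_image_of_injective {k | G.Adj i k} hvinj
  have g3' := Set.ncard_image_of_injective {k | G.Adj i k} huinj
  have k1 := Set.ncard_image_of_injective
    {z | (mycielskian G).Adj (.v j) z ∧ (mycielskian G).Adj .w z} φ.injective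
  have k2 := Set.ncard_image_of_injective
    {z | (mycielskian G).Adj (.v j) z ∧ ¬ (mycielskian G).Adj .w z} φ.injective
  rw [e1, f1, f3, g1, g3] at k1
  rw [e2, f2, f4, g2, Set.ncard_singleton] at k2
  -- degrees of `w` and `v i`
  have e5 : φ '' {z | (mycielskian G).Adj .w z} = {z | (mycielskian G).Adj (.v i) z} := by
    ext z
    constructor
    · rintro ⟨t, h1, rfl⟩
      show (mycielskian G).Adj _ _
      rw [← hi, hadj]; exact h1
    · intro h1
      obtain ⟨t, rfl⟩ := φ.surjective z
      change (mycielskian G).Adj _ _ at h1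
      rw [← hi, hadj] at h1
      exact ⟨t, h1, rfl⟩
  have f5 : {z | (mycielskian G).Adj .w z} = MV.u '' Set.univ := by
    ext z; cases z <;> simp
  have f6 : {z | (mycielskian G).Adj (.v i) z} =
      MV.v '' {k | G.Adj i k} ∪ MV.u '' {k | G.Adj i k} := by
    ext z; cases z <;> simp
  have k5 := Set.ncard_image_of_injective {z | (mycielskian G).Adj .w z} φ.injective
  have g5 := Set.ncard_image_of_injective (Set.univ : Set V) huinj
  rw [e5, f5, f6, g5, Set.ncard_univ, Nat.card_eq_fintype_card] at k5
  have := Set.ncard_union_le (MV.v '' {k | G.Adj i k}) (MV.u '' {k | G.Adj i k})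
  rw [g3, g3'] at this
  omega

/-- If `w` is mapped to `u i`, then `G` is a star with centre `i`. -/
lemma star_of_u [Fintype V] (φ : mycielskian G ≃g mycielskian G) (i : V)
    (hi : φ .w = .u i) : (∀ k, k ≠ i → G.Adj i k) ∧ ∀ a b, a ≠ i → b ≠ i → ¬ G.Adj a b := by
  classical
  have hadj : ∀ a b, (mycielskian G).Adj (φ a) (φ b) ↔ (mycielskian G).Adj a b :=
    fun a b => φ.map_adj_iff
  have hvinj : Function.Injective (MV.v : V → MV V) := fun a b h => by cases h; rfl
  have huinj : Function.Injective (MV.u : V → MV V) := fun a b h => by cases h; rfl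
  have e5 : φ '' {z | (mycielskian G).Adj .w z} = {z | (mycielskian G).Adj (.u i) z} := by
    ext z
    constructor
    · rintro ⟨t, h1, rfl⟩
      show (mycielskian G).Adj _ _
      rw [← hi, hadj]; exact h1
    · intro h1
      obtain ⟨t, rfl⟩ := φ.surjective z
      change (mycielskian G).Adj _ _ at h1
      rw [← hi, hadj] at h1
      exact ⟨t, h1, rfl⟩
  have f5 : {z | (mycielskian G).Adj .w z} = MV.u '' Set.univ := by
    ext z; cases z <;> simp
  have f6 : {z | (mycielskian G).Adj (.u i) z} =
      MV.v '' {k | G.Adj i k} ∪ {MV.w} := by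
    ext z; cases z <;> simp
  have k5 := Set.ncard_image_of_injective {z | (mycielskian G).Adj .w z} φ.injective
  have g5 := Set.ncard_image_of_injective (Set.univ : Set V) huinj
  rw [e5, f5, f6, g5, Set.ncard_univ, Nat.card_eq_fintype_card] at k5
  have h2 := Set.ncard_union_le (MV.v '' {k | G.Adj i k}) {MV.w}
  rw [Set.ncard_image_of_injective _ hvinj, Set.ncard_singleton, k5] at h2
  constructor
  · intro k hk
    by_contra hnot
    have hsub : {k | G.Adj i k} ⊆ (Finset.univ.erase i).erase k := by
      intro a ha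
      simp only [Finset.coe_erase, Finset.coe_univ, Set.mem_sdiff, Set.mem_univ,
        Set.mem_singleton_iff, true_and]
      refine ⟨?_, ?_⟩
      · rintro rfl; exact G.loopless.irrefl _ ha
      · rintro rfl; exact hnot ha
    have h4 := Set.ncard_le_ncard hsub (Finset.finite_toSet _)
    rw [Set.ncard_coe_finset, Finset.card_erase_of_mem (by simp [hk]),
      Finset.card_erase_of_mem (Finset.mem_univ _), Finset.card_univ] at h4
    have h5 : 2 ≤ Fintype.card V := by
      have : ({i, k} : Finset V).card ≤ Fintype.card V := Finset.card_le_univ _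
      rwa [Finset.card_pair (Ne.symm hk)] at this
    omega
  · have hall : ∀ k, k ≠ i → G.Adj i k := by
      intro k hk
      by_contra hnot
      have hsub : {k | G.Adj i k} ⊆ (Finset.univ.erase i).erase k := by
        intro a ha
        simp only [Finset.coe_erase, Finset.coe_univ, Set.mem_sdiff, Set.mem_univ,
          Set.mem_singleton_iff, true_and]
        refine ⟨?_, ?_⟩
        · rintro rfl; exact G.loopless.irrefl _ ha
        · rintro rfl; exact hnot ha
      have h4 := Set.ncard_le_ncard hsub (Finset.finite_toSet _)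
      rw [Set.ncard_coe_finset, Finset.card_erase_of_mem (by simp [hk]),
        Finset.card_erase_of_mem (Finset.mem_univ _), Finset.card_univ] at h4
      have h5 : 2 ≤ Fintype.card V := by
        have : ({i, k} : Finset V).card ≤ Fintype.card V := Finset.card_le_univ _
        rwa [Finset.card_pair (Ne.symm hk)] at this
      omega
    intro a b ha hb hab
    -- `v a` and `v b` are neighbours of `u i = φ w`
    obtain ⟨s, hs⟩ := φ.surjective (.v a)
    obtain ⟨t, ht⟩ := φ.surjective (.v b)
    have h1 : (mycielskian G).Adj .w s := by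
      rw [← hadj, hi, hs]; exact hall a ha
    have h2 : (mycielskian G).Adj .w t := by
      rw [← hadj, hi, ht]; exact hall b hb
    have h3 : (mycielskian G).Adj s t := by
      rw [← hadj, hs, ht]; exact hab
    cases s <;> cases t <;> simp_all

end lemmas

/-- The projection of the vertices of the Mycielskian to `V`. -/
def proj (x0 : V) : MV V → V
  | .v x => x
  | .u x => x
  | .w => x0

open Classical in
/-- The colouring of the Mycielskian: `v x v y` and `u x v y` get the colour of `x y`, and all
edges at `w` get the colour `κ`. -/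
noncomputable def lift {d : ℕ} (x0 : V) (κ : Fin d) (c : Sym2 V → Fin d) :
    Sym2 (MV V) → Fin d :=
  fun e => if MV.w ∈ e then κ else c (e.map (proj x0))

section lift

variable (G : SimpleGraph V) {d : ℕ} (x0 : V) (κ : Fin d) (c : Sym2 V → Fin d)

@[simp] lemma lift_vv (x y : V) : lift x0 κ c s(.v x, .v y) = c s(x, y) := by
  simp [lift, proj]
@[simp] lemma lift_uv (x y : V) : lift x0 κ c s(.u x, .v y) = c s(x, y) := by
  simp [lift, proj]
@[simp] lemma lift_vu (x y : V) : lift x0 κ c s(.v x, .u y) = c s(x, y) := by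
  simp [lift, proj]
@[simp] lemma lift_wu (x : V) : lift x0 κ c s(.w, .u x) = κ := by
  simp [lift]
@[simp] lemma lift_uw (x : V) : lift x0 κ c s(.u x, .w) = κ := by
  simp [lift]

/-- The swap of two twins joined to their neighbours by edges of the same colours. -/
lemma twins (hc : Distinguishing G c) (k l : V) (h1 : ∀ j, G.Adj k j ↔ G.Adj l j)
    (h2 : ∀ j, G.Adj k j → c s(k, j) = c s(l, j)) : k = l := by
  classical
  by_contra hkl
  have hnk : ¬ G.Adj k l := by
    intro h
    exact G.loopless.irrefl _ ((h1 l).1 h)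
  have hnl : ¬ G.Adj l k := fun h => hnk h.symm
  have hadj : ∀ a b, G.Adj (Equiv.swap k l a) (Equiv.swap k l b) ↔ G.Adj a b := by
    intro a b
    have h1' : ∀ j, G.Adj j k ↔ G.Adj j l := fun j => by
      rw [G.adj_comm, h1, G.adj_comm]
    rcases eq_or_ne a k with rfl | hak
    · rw [Equiv.swap_apply_left]
      rcases eq_or_ne b a with rfl | hba
      · rw [Equiv.swap_apply_left]; simp
      rcases eq_or_ne b l with rfl | hbl
      · rw [Equiv.swap_apply_right]; simp [hnk, hnl]
      · rw [Equiv.swap_apply_of_ne_of_ne hba hbl]; exact (h1 b).symm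
    rcases eq_or_ne a l with rfl | hal
    · rw [Equiv.swap_apply_right]
      rcases eq_or_ne b k with rfl | hba
      · rw [Equiv.swap_apply_left]; simp [hnk, hnl]
      rcases eq_or_ne b a with rfl | hbl
      · rw [Equiv.swap_apply_right]; simp
      · rw [Equiv.swap_apply_of_ne_of_ne hba hbl]; exact (h1 b)
    rw [Equiv.swap_apply_of_ne_of_ne hak hal]
    rcases eq_or_ne b k with rfl | hbk
    · rw [Equiv.swap_apply_left]; exact (h1' a).symm
    rcases eq_or_ne b l with rfl | hbl
    · rw [Equiv.swap_apply_right]; exact h1' a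
    · rw [Equiv.swap_apply_of_ne_of_ne hbk hbl]
  have := hc ⟨Equiv.swap k l, by intro a b; exact hadj a b⟩ (by
    intro a b hab
    show c s(Equiv.swap k l a, Equiv.swap k l b) = c s(a, b)
    rcases eq_or_ne a k with rfl | hak
    · have hba : b ≠ a := by rintro rfl; exact G.loopless.irrefl _ hab
      have hbl : b ≠ l := by rintro rfl; exact hnk hab
      rw [Equiv.swap_apply_left, Equiv.swap_apply_of_ne_of_ne hba hbl]
      exact (h2 b hab).symm
    rcases eq_or_ne a l with rfl | hal
    · have hba : b ≠ a := by rintro rfl; exact G.loopless.irrefl _ hab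
      have hbk : b ≠ k := by rintro rfl; exact hnl hab
      rw [Equiv.swap_apply_right, Equiv.swap_apply_of_ne_of_ne hbk hba]
      exact h2 b ((h1 b).2 hab)
    rw [Equiv.swap_apply_of_ne_of_ne hak hal]
    rcases eq_or_ne b k with rfl | hbk
    · rw [Equiv.swap_apply_left, Sym2.eq_swap, Sym2.eq_swap (a := a)]
      exact (h2 a hab.symm).symm
    rcases eq_or_ne b l with rfl | hbl
    · rw [Equiv.swap_apply_right, Sym2.eq_swap, Sym2.eq_swap (a := a)]
      exact h2 a ((h1 a).2 hab.symm)
    · rw [Equiv.swap_apply_of_ne_of_ne hbk hbl]) k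
  have h3 : Equiv.swap k l k = k := this
  rw [Equiv.swap_apply_left] at h3
  exact hkl h3.symm

/-- The main lemma: the lifted colouring is distinguishing. -/
lemma lift_distinguishing [Fintype V] (h3 : 3 ≤ Fintype.card V) (hc : Distinguishing G c) :
    Distinguishing (mycielskian G) (lift x0 κ c) := by
  classical
  intro φ hφ
  have hadj : ∀ a b, (mycielskian G).Adj (φ a) (φ b) ↔ (mycielskian G).Adj a b :=
    fun a b => φ.map_adj_iff
  -- `w` is fixed
  have hw : φ .w = .w := by
    cases hx : φ .w with
    | w => rfl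
    | v i => exact absurd hx (not_v G h3 φ i)
    | u i =>
      exfalso
      obtain ⟨hs1, hs2⟩ := star_of_u G φ i hx
      -- all edges of `G` have colour `κ`
      have hκ : ∀ k, k ≠ i → c s(i, k) = κ := by
        intro k hk
        obtain ⟨t, ht⟩ := φ.surjective (.v k)
        have h1 : (mycielskian G).Adj .w t := by
          rw [← hadj, hx, ht]; exact hs1 k hk
        have h2 := hφ _ _ h1
        rw [hx, ht, lift_uv] at h2
        rw [h2]
        cases t with
        | v a => exact absurd h1 (by simp)
        | u a => simp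
        | w => exact absurd h1 ((mycielskian G).loopless.irrefl _)
      -- two leaves
      obtain ⟨a, ha⟩ : ∃ a, a ∉ ({i} : Finset V) := by
        by_contra hcon
        push Not at hcon
        have : Fintype.card V ≤ ({i} : Finset V).card := by
          rw [← Finset.card_univ]; exact Finset.card_le_card (fun x _ => hcon x)
        rw [Finset.card_singleton] at this
        omega
      obtain ⟨b, hb⟩ : ∃ b, b ∉ ({i, a} : Finset V) := by
        by_contra hcon
        push Not at hcon
        have : Fintype.card V ≤ ({i, a} : Finset V).card := by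
          rw [← Finset.card_univ]; exact Finset.card_le_card (fun x _ => hcon x)
        have h2 : ({i, a} : Finset V).card ≤ 2 := Finset.card_le_two
        omega
      simp only [Finset.mem_singleton] at ha
      simp only [Finset.mem_insert, Finset.mem_singleton, not_or] at hb
      have hleaf : ∀ a, a ≠ i → ∀ j, G.Adj a j ↔ j = i := by
        intro a ha j
        constructor
        · intro h
          by_contra hj
          exact hs2 a j ha hj h
        · rintro rfl
          exact (hs1 a ha).symm
      have := twins G c hc a b (fun j => by rw [hleaf a ha, hleaf b hb.1]) (by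
        intro j hj
        rw [hleaf a ha] at hj
        subst hj
        rw [Sym2.eq_swap, hκ a ha, Sym2.eq_swap, hκ b hb.1])
      exact hb.2 this.symm
  -- `v` and `u` vertices are preserved
  have hu : ∀ x, ∃ y, φ (.u x) = .u y := by
    intro x
    have h1 : (mycielskian G).Adj (φ .w) (φ (.u x)) := by rw [hadj]; simp
    rw [hw] at h1
    cases hx : φ (.u x) with
    | v a => rw [hx] at h1; exact absurd h1 (by simp)
    | u a => exact ⟨a, rfl⟩
    | w => rw [hx] at h1; exact absurd h1 ((mycielskian G).loopless.irrefl _)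
  have hv : ∀ x, ∃ y, φ (.v x) = .v y := by
    intro x
    have h1 : ¬ (mycielskian G).Adj (φ .w) (φ (.v x)) := by rw [hadj]; simp
    rw [hw] at h1
    cases hx : φ (.v x) with
    | v a => exact ⟨a, rfl⟩
    | u a => rw [hx] at h1; exact absurd (adj_wu G a) h1
    | w =>
      have : MV.v x = MV.w := φ.injective (by rw [hx, hw])
      cases this
  have hv' : ∀ x, ∃ y, φ.symm (.v x) = .v y := by
    intro x
    cases hx : φ.symm (.v x) with
    | v a => exact ⟨a, rfl⟩
    | u a =>
      obtain ⟨y, hy⟩ := hu a
      rw [← hx, RelIso.apply_symm_apply] at hy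
      cases hy
    | w =>
      have : φ .w = .v x := by rw [← hx, RelIso.apply_symm_apply]
      rw [hw] at this
      cases this
  choose σ hσ using hv
  choose σ' hσ' using hv'
  choose τ hτ using hu
  have hσσ' : ∀ x, σ (σ' x) = x := by
    intro x
    have h1 := hσ (σ' x)
    rw [← hσ' x, RelIso.apply_symm_apply] at h1
    injection h1 with h1
    exact h1.symm
  have hσ'σ : ∀ x, σ' (σ x) = x := by
    intro x
    have h1 := hσ' (σ x)
    rw [← hσ x, RelIso.symm_apply_apply] at h1
    injection h1 with h1
    exact h1.symm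
  have hσid : ∀ x, σ x = x := by
    have := hc ⟨⟨σ, σ', hσ'σ, hσσ'⟩, by
      intro a b
      show G.Adj (σ a) (σ b) ↔ G.Adj a b
      rw [← adj_vv, ← hσ, ← hσ, hadj, adj_vv]⟩ (by
      intro a b hab
      show c s(σ a, σ b) = c s(a, b)
      have h1 := hφ (.v a) (.v b) hab
      rw [hσ, hσ, lift_vv, lift_vv] at h1
      exact h1)
    exact this
  have hτid : ∀ x, τ x = x := by
    intro x
    have hτadj : ∀ j, G.Adj (τ x) j ↔ G.Adj x j := by
      intro j
      have h1 := hadj (.u x) (.v j)
      rw [hτ, hσ, hσid, adj_uv, adj_uv] at h1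
      exact h1
    refine twins G c hc (τ x) x hτadj ?_
    · intro j hj
      have hj' : G.Adj x j := (hτadj j).1 hj
      have h1 := hφ (.u x) (.v j) hj'
      rw [hτ, hσ, hσid, lift_uv, lift_uv] at h1
      exact h1
  intro x
  cases x with
  | v a => rw [hσ, hσid]
  | u a => rw [hτ, hτid]
  | w => exact hw

end lift

/-- An injective colouring of a connected graph with at least three vertices is
distinguishing. -/
lemma inj_distinguishing [Fintype V] (G : SimpleGraph V) (hG : G.Connected)
    (h3 : 3 ≤ Fintype.card V) {d : ℕ} (c : Sym2 V → Fin d) (hc : Function.Injective c) :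
    Distinguishing G c := by
  classical
  intro φ hφ x
  by_contra hx
  -- `x` has a neighbour
  have hfix : ∀ a b, G.Adj a b → (φ a = a ∧ φ b = b) ∨ (φ a = b ∧ φ b = a) := by
    intro a b hab
    have := hc (hφ a b hab)
    rw [Sym2.eq_iff] at this
    exact this
  have hnt : Nontrivial V := by
    rw [← Fintype.one_lt_card_iff_nontrivial]; omega
  obtain ⟨y, hxy⟩ : ∃ y, G.Adj x y := by
    obtain ⟨z, hz⟩ := exists_ne x
    obtain ⟨p⟩ := hG.preconnected x z
    cases p with
    | nil => exact absurd rfl hz
    | cons h _ => exact ⟨_, h⟩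
  have hswap : φ x = y ∧ φ y = x := by
    rcases hfix x y hxy with h | h
    · exact absurd h.1 hx
    · exact h
  have hxn : ∀ z, G.Adj x z → z = y := by
    intro z hz
    rcases hfix x z hz with h | h
    · exact absurd h.1 hx
    · rw [← h.1, hswap.1]
  have hyn : ∀ z, G.Adj y z → z = x := by
    intro z hz
    rcases hfix y z hz with h | h
    · have := h.1
      rw [hswap.2] at this
      exact absurd hxy (by rw [this]; exact G.loopless.irrefl _)
    · rw [← h.1, hswap.2]
  -- the component of `x` is `{x, y}`
  have hreach : ∀ z, G.Reachable x z → z = x ∨ z = y := by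
    intro z hz
    obtain ⟨p⟩ := hz
    have : ∀ (a b : V) (q : G.Walk a b), (a = x ∨ a = y) → (b = x ∨ b = y) := by
      intro a b q
      induction q with
      | nil => exact id
      | cons h _ ih =>
        intro hh
        apply ih
        rcases hh with rfl | rfl
        · exact Or.inr (hxn _ h)
        · exact Or.inl (hyn _ h)
    exact this x z p (Or.inl rfl)
  have hcard : Fintype.card V ≤ ({x, y} : Finset V).card := by
    rw [← Finset.card_univ]
    refine Finset.card_le_card (fun z _ => ?_)
    rcases hreach z (hG.preconnected x z) with h | h <;> simp [h]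
  have := Finset.card_le_two (a := x) (b := y)
  omega

lemma exists_distIndex [Fintype V] (G : SimpleGraph V) {d : ℕ} (hd : 0 < d)
    (h : ∃ c : Sym2 V → Fin d, Distinguishing G c) : ∃ a, IsDistIndex G a := by
  classical
  have hne : {d : ℕ | 0 < d ∧ ∃ c : Sym2 V → Fin d, Distinguishing G c}.Nonempty := ⟨d, hd, h⟩
  exact ⟨_, Nat.sInf_mem hne, fun b hb => Nat.sInf_le hb⟩

/-- **The distinguishing index of the Mycielskian.**  For every connected finite graph `G` with
at least three vertices the distinguishing indices `a = D'(G)` and `b = D'(μ(G))` exist and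
`D'(μ(G)) ≤ D'(G)`. -/
theorem result [Fintype V] (G : SimpleGraph V) (hG : G.Connected) (h3 : 3 ≤ Fintype.card V) :
    ∃ a b, IsDistIndex G a ∧ IsDistIndex (mycielskian G) b ∧ b ≤ a := by
  classical
  obtain ⟨x0⟩ : Nonempty V := hG.nonempty
  have hpos : 0 < Fintype.card (Sym2 V) := Fintype.card_pos_iff.2 ⟨s(x0, x0)⟩
  obtain ⟨a, ha⟩ := exists_distIndex G hpos
    ⟨_, inj_distinguishing G hG h3 (Fintype.equivFin (Sym2 V)) (Equiv.injective _)⟩
  obtain ⟨⟨hapos, c, hc⟩, hmin⟩ := ha
  have hl := lift_distinguishing G x0 ⟨0, hapos⟩ c h3 hc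
  have hne : {d : ℕ | 0 < d ∧ ∃ c : Sym2 (MV V) → Fin d,
      Distinguishing (mycielskian G) c}.Nonempty := ⟨a, hapos, _, hl⟩
  exact ⟨a, _, ⟨⟨hapos, c, hc⟩, hmin⟩, ⟨Nat.sInf_mem hne, fun b hb => Nat.sInf_le hb⟩,
    Nat.sInf_le ⟨hapos, _, hl⟩⟩

end Pool.Agent.Results.MP_da4765_co.Mycielskian
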